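import Pool.Agent.Lib.MP_2d1e68_al.Cls

/-!
# All actions of the groups of a large class are sofic

The class `ClassS` contains the amenable groups and is closed under subgroups, directed unions,
co-amenable overgroups, HNN extensions over amenable subgroups and amalgamated free products over
amenable subgroups.  Every action of a group of this class on any set is sofic, so Q1 has a positive
answer for all wreath products over it.
-/

namespace Pool.Agent.Results.MP_2d1e68_al.AllActions

open SoficAct

theorem result (H : Type) [Group H] (hH : ClassS H) (X : Type) (α : H →* Equiv.Perm X) :
    IsSoficAction α :=
  hH.sofic X α

end Pool.Agent.Results.MP_2d1e68_al.AllActions
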