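import Pool.Agent.Lib.MP_2d1e68_al.ClsA

/-!
# Closure properties of the class of the sofic actions
-/

namespace Pool.Agent.Results.MP_2d1e68_al.Closure

open SoficAct

theorem result (H X : Type) [Group H] (α : H →* Equiv.Perm X) (hα : ClassA α) :
    IsSoficAction α :=
  hα.sofic

end Pool.Agent.Results.MP_2d1e68_al.Closure
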