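import Pool.Agent.Lib.MP_2d1e68_al.Cls

/-!
# Soficity of the action follows from soficity of the wreath product

The open direction of Q1 for the class `ClassQ G` of actions.
-/

namespace Pool.Agent.Results.MP_2d1e68_al.Descent

open SoficAct

theorem result (G H X : Type) [Group G] [Group H] (α : H →* Equiv.Perm X) (hG : ∃ g : G, g ≠ 1)
    (hα : ClassQ G α) (hW : IsSoficGroup (GenWreath G α)) :
    IsSoficAction α ∧ IsSoficGroup H ∧ (Nonempty X → IsSoficGroup G) :=
  ⟨hα.q1 hG hW, wreath_base α hW, fun ⟨x⟩ => wreath_fibre α x hW⟩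

end Pool.Agent.Results.MP_2d1e68_al.Descent
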