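import Pool.Agent.Lib.MP_2d1e68_al.Kz.All

/-!
# Soficity of wreath products and normal subgroups with property (T) in the kernel of the action

If the kernel of the action contains a normal subgroup `N` of `H` which is locally (in normal
subgroups of `H`) a group with property (T), then soficity of `G ≀_α H` passes to a wreath product
`G ≀ (H/R)` with `N ≤ R ≤ Ker α`.
-/

namespace Pool.Agent.Results.MP_2d1e68_al.KazhdanKernel

open SoficAct SoficAct.Kz

theorem result (G H X : Type) [Group G] [Group H] (α : H →* Equiv.Perm X)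
    (hG : ∃ g : G, g ≠ 1) (N : Subgroup H) [N.Normal] (hN : N ≤ α.ker)
    (hT : ∀ F : Finset H, (∀ n ∈ F, n ∈ N) →
      ∃ M : Subgroup H, M.Normal ∧ (∀ n ∈ M, n ∈ N) ∧ (∀ n ∈ F, n ∈ M) ∧ PropertyT M)
    (hW : IsSoficGroup (GenWreath G α)) :
    (∃ (R : Subgroup H) (_ : R.Normal) (hR : R ≤ α.ker), N ≤ R ∧
      IsSoficGroup (GenWreath G (QuotientGroup.lift R α hR))) ∧
    ((∀ (R : Subgroup H) [R.Normal] (hR : R ≤ α.ker), N ≤ R →
      IsSoficGroup (GenWreath G (QuotientGroup.lift R α hR)) →
        IsSoficAction (QuotientGroup.lift R α hR)) → IsSoficAction α) ∧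
    ((∀ x, IsAmenable (stab α x ⧸ N.subgroupOf (stab α x))) → IsSoficAction α) ∧
    (α.ker = N → IsSoficGroup (H ⧸ N)) :=
  descent G H X α hG N hN hT hW

end Pool.Agent.Results.MP_2d1e68_al.KazhdanKernel
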